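import Pool.Agent.V5helper83.AR.Entire
import Pool.Agent.N264.MKI.Conf

/-!
# Analytic first integrals and ovals with an arc parametrised by a function of order less than one

Two cases of MP_ae5b4e_an: inner billiards (by projective duality the case in which the involution
of the tangent line of the dual curve, the pencil of the lines through a point of `γ`, is dual to
the reflection in `γ`; confocal families are dual to pencils of conics), and outer billiards (all
`σ_p` are the point reflections).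
-/

open Complex Set

namespace Pool.Agent.Results.MP_ae5b4e_an.EntireArcs

/-- `γ` is a closed plane curve with positive continuous radius of curvature `ρ`, parametrised by
its normal angle: `γ'(s) = ρ(s) i e^{is}`; the outer unit normal at `γ s` is `e^{is}`. -/
def IsOval (γ : ℝ → ℂ) (ρ : ℝ → ℝ) : Prop :=
  (∀ s, γ (s + 2 * Real.pi) = γ s) ∧ Continuous ρ ∧ (∀ s, 0 < ρ s) ∧
    ∀ s : ℝ, HasDerivAt γ ((ρ s : ℂ) * I * cexp (s * I)) s

/-- Some arc of `γ` is parametrised by a function of order less than one in `e^{it}`: there are a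
function `G` holomorphic on `ℂ ∖ {0}` with `|G(w)| ≤ exp (A (|w|^σ + |w|^{-σ}))`, `0 ≤ σ < 1`, and
a continuous change of parameter `θ` on an interval `(t₀, t₁)` with `γ(θ(t)) = G(e^{it})` for
`t₀ < t < t₁`, not constant there. -/
def HasEntireArc (γ : ℝ → ℂ) : Prop :=
  ∃ (G : ℂ → ℂ) (A σ : ℝ) (θ : ℝ → ℝ) (t₀ t₁ : ℝ), DifferentiableOn ℂ G {0}ᶜ ∧ 0 ≤ σ ∧ σ < 1 ∧
    (∀ w : ℂ, w ≠ 0 → ‖G w‖ ≤ Real.exp (A * (‖w‖ ^ σ + ‖w‖ ^ (-σ)))) ∧
    ContinuousOn θ (Ioo t₀ t₁) ∧ (∀ t ∈ Ioo t₀ t₁, γ (θ t) = G (cexp (t * I))) ∧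
    ∃ s ∈ Ioo t₀ t₁, ∃ t ∈ Ioo t₀ t₁, γ (θ s) ≠ γ (θ t)

/-- support coordinate of the line with unit normal `e^{iφ}` through the point `z`: the line is
`{x | Re (x e^{-iφ}) = support z φ}` -/
noncomputable def support (z : ℂ) (φ : ℝ) : ℝ := (z * cexp (-(φ * I))).re

/-- `K(φ, p)` is a nonconstant real analytic first integral of the billiard inside `γ` near the
boundary: a function of the oriented line with normal angle `φ` and support coordinate `p`, which
is analytic and nonconstant near the tangent lines of `γ` (`|p - support (γ φ) φ| < ε`; periodicity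
in `φ` is not required), and which for every `s` has the same value at the two lines through `γ s`
with normal angles `s + δ` and `s - δ` (exchanged by the reflection in `γ` at `γ s`), for all small
`δ > 0`. -/
def IsInnerIntegral (γ : ℝ → ℂ) (K : ℝ → ℝ → ℝ) (ε : ℝ) : Prop :=
  0 < ε ∧ AnalyticOnNhd ℝ (Function.uncurry K) {z | |z.2 - support (γ z.1) z.1| < ε} ∧
    (∀ s : ℝ, ∃ εs > 0, ∀ δ : ℝ, 0 < δ → δ < εs →
      K (s + δ) (support (γ s) (s + δ)) = K (s - δ) (support (γ s) (s - δ))) ∧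
    ∃ φ p ψ q : ℝ, |p - support (γ φ) φ| < ε ∧ |q - support (γ ψ) ψ| < ε ∧ K φ p ≠ K ψ q

/-- the point at signed distance `δ` from `γ s` on the tangent line at `γ s` -/
noncomputable def tangentPoint (γ : ℝ → ℂ) (s δ : ℝ) : ℂ := γ s + δ * (I * cexp (s * I))

/-- `K(x, y)` is a nonconstant real analytic first integral of the outer billiard about `γ` near
`γ`: it is analytic and nonconstant on a connected neighbourhood `U` of `γ`, and for every `s` it
has the same value at the two points at distance `δ` from `γ s` on the tangent line at `γ s`, which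
the reflection in `γ s` exchanges, for all small `δ > 0`. -/
def IsOuterIntegral (γ : ℝ → ℂ) (K : ℝ → ℝ → ℝ) (U : Set (ℝ × ℝ)) : Prop :=
  IsOpen U ∧ IsPreconnected U ∧ (∀ s, ((γ s).re, (γ s).im) ∈ U) ∧
    AnalyticOnNhd ℝ (Function.uncurry K) U ∧
    (∀ s : ℝ, ∃ ε > 0, ∀ δ : ℝ, 0 < δ → δ < ε →
      K (tangentPoint γ s δ).re (tangentPoint γ s δ).im =
        K (tangentPoint γ s (-δ)).re (tangentPoint γ s (-δ)).im) ∧
    ∃ z ∈ U, ∃ w ∈ U, K z.1 z.2 ≠ K w.1 w.2

/-- the conic of the homothetic pencil: the set of the points `(x, y)` with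
`a (x - u)² + 2 b (x - u) (y - v) + d (y - v)² = l`, where `c = u + iv` -/
def conic (c : ℂ) (a b d l : ℝ) : Set ℂ :=
  {x : ℂ | a * (x.re - c.re) ^ 2 + 2 * b * (x.re - c.re) * (x.im - c.im)
      + d * (x.im - c.im) ^ 2 = l}

/-- The square of the support function of `conic c a b d 1` about its centre `c`.  The tangent
lines of the ellipse have the support coordinates `support c φ + √(supportSq a b d φ)`, and the
tangent lines of the ellipses confocal with it `support c φ + √(supportSq a b d φ - l)`, `l`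
constant. -/
noncomputable def supportSq (a b d φ : ℝ) : ℝ :=
  (d * Real.cos φ ^ 2 - 2 * b * (Real.cos φ * Real.sin φ) + a * Real.sin φ ^ 2) / (a * d - b ^ 2)

lemma tangentPoint_re (γ : ℝ → ℂ) (s δ : ℝ) :
    (tangentPoint γ s δ).re = (γ s).re - δ * Real.sin s := by
  simp [tangentPoint, Complex.exp_ofReal_mul_I_re, Complex.exp_ofReal_mul_I_im]
  ring

lemma tangentPoint_im (γ : ℝ → ℂ) (s δ : ℝ) :
    (tangentPoint γ s δ).im = (γ s).im + δ * Real.cos s := by
  simp [tangentPoint, Complex.exp_ofReal_mul_I_re, Complex.exp_ofReal_mul_I_im]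

lemma oInt {γ : ℝ → ℂ} {K : ℝ → ℝ → ℝ} {U : Set (ℝ × ℝ)} (h : IsOuterIntegral γ K U) :
    H719FX.OInt γ K U := by
  obtain ⟨h1, h2, h3, h4, h5, z, hz, w, hw, hne⟩ := h
  refine ⟨h1, h2, h3, h4, fun s => ?_, ?_⟩
  · obtain ⟨ε, hε, h⟩ := h5 s
    refine ⟨ε, hε, fun δ hδ hδ' => ?_⟩
    have := h δ hδ hδ'
    simpa [tangentPoint_re, tangentPoint_im, sub_eq_add_neg] using this
  · rintro ⟨c, hc⟩
    exact hne ((hc z hz).trans (hc w hw).symm)

/-- Let `γ` be an oval some arc of which is parametrised by a function of order less than one in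
`e^{it}`.  (1) If the billiard inside `γ` has a nonconstant real analytic first integral `K` near
the boundary, then `γ` is an ellipse, and `K` is constant on the set of the tangent lines of every
ellipse confocal with `γ` and close to `γ`.  (2) If the outer billiard about `γ` has a nonconstant
real analytic first integral `K` near `γ`, then `γ` is an ellipse, and `K` is constant on every
ellipse of the homothetic pencil of `γ` close to `γ` outside it. -/
theorem result : ∀ (γ : ℝ → ℂ) (ρ : ℝ → ℝ), IsOval γ ρ → HasEntireArc γ →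
    (∀ (K : ℝ → ℝ → ℝ) (ε : ℝ), IsInnerIntegral γ K ε →
      ∃ (c : ℂ) (a b d : ℝ), 0 < a ∧ 0 < a * d - b ^ 2 ∧ Set.range γ = conic c a b d 1 ∧
        ∃ η > 0, ∀ l : ℝ, |l| < η → ∃ κ : ℝ, ∀ φ : ℝ, 0 < supportSq a b d φ - l ∧
          |support c φ + Real.sqrt (supportSq a b d φ - l) - support (γ φ) φ| < ε ∧
          K φ (support c φ + Real.sqrt (supportSq a b d φ - l)) = κ) ∧
    ∀ (K : ℝ → ℝ → ℝ) (U : Set (ℝ × ℝ)), IsOuterIntegral γ K U →
      ∃ (c : ℂ) (a b d : ℝ), 0 < a ∧ 0 < a * d - b ^ 2 ∧ Set.range γ = conic c a b d 1 ∧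
        ∃ η > 0, ∀ l : ℝ, 1 ≤ l → l < 1 + η → ∃ κ : ℝ, ∀ x ∈ conic c a b d l,
          (x.re, x.im) ∈ U ∧ K x.re x.im = κ := by
  rintro γ ρ ⟨h1, h2, h3, h4⟩ ⟨G, A, σ, θ, t₀, t₁, hG, hσ, hσ1, hb, hθ, hγ, hnt⟩
  obtain ⟨d1, d2, d3⟩ := Pool.Agent.W743.BE.of_punctured hσ hG hb
  refine ⟨?_, ?_⟩
  · rintro K ε ⟨hε, hK, hsym, φ, p, ψ, q, hp, hq, hne⟩
    obtain ⟨c, a, b, d, ha, hdet, hr⟩ := Pool.Agent.V5helper83.AR.inner_entire
      (γ := γ) (ρ := ρ) ⟨h1, h2, h3, h4⟩ hε hK hsym (by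
        rintro ⟨k, hk⟩
        exact hne ((hk φ p hp).trans (hk ψ q hq).symm)) hσ hσ1 d1 d2 d3 hθ hγ hnt
    obtain ⟨η, hη, hl⟩ := Pool.Agent.N264.MKI.conf h3 h4 ha hdet hr hε hK hsym
    refine ⟨c, a, b, d, ha, hdet, hr, η, hη, fun l hl' => ?_⟩
    obtain ⟨κ, hκ⟩ := hl l hl'
    exact ⟨κ, fun φ => ⟨(hκ φ).2.1, (hκ φ).1, (hκ φ).2.2⟩⟩
  · intro K U hK
    obtain ⟨c, a, b, d, ha, hdet, hr, η, hη, hl⟩ := Pool.Agent.V5helper83.AR.outer_entire
      (γ := γ) (ρ := ρ) ⟨h1, h2, h3, h4⟩ (oInt hK) hσ hσ1 d1 d2 d3 hθ hγ hnt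
    refine ⟨c, a, b, d, ha, hdet, hr, η, hη, fun l hl1 hl2 => ?_⟩
    obtain ⟨κ, hκ⟩ := hl l hl1 hl2
    exact ⟨κ, fun x hx => hκ x.re x.im hx⟩

end Pool.Agent.Results.MP_ae5b4e_an.EntireArcs
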