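import Pool.Agent.V5helper21.HD.Final

/-!
# Projective involutions on the tangent lines of all leaves

`f` is a first integral of the foliation: the leaves are the closed convex curves `{f = c}`,
`0 ≤ c < r`, each surrounding the disc `{f < 0}` bounded by `γ = {f = 0}`; they foliate the
one-sided neighbourhood `{0 ≤ f < r}` of `γ` (`Foliation`). No lower bound for the curvature of the
leaves is assumed.

`ProjectiveAt f p`: let `v` be a tangent vector at `p` of the leaf of `p`. The outer leaves near
`p` meet the tangent line `s ↦ p + s v` near `p` in two points, which are exchanged by an involution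
that fixes `s = 0`. A projective transformation of the line which fixes `s = 0` and is an involution
different from the identity is `s ↦ -s / (1 + c s)` for some real `c`. So the involution is
projective if and only if, for some `c`, `f` has the same value at `s` and at `-s / (1 + c s)`, for
all `s` near `0`; the size of the neighbourhood may depend on `p` in an arbitrary way.

**Theorem.** If this holds at every point `p` of every leaf `{f = c}`, `0 < c < r` (nothing is
assumed on the tangent lines of `γ`), then `γ` and all leaves are ellipses of one pencil of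
conics.

Proof (`Pool/Agent/V5helper21/HD`). (1) By Baire's theorem the involutions are projective on
intervals of uniform length near a dense set of points. (2) There one considers the two points
`X, Y` of a leaf on the line `y = m x + b` as functions of `(m, b, c)`, which satisfy the Burgers
equation `X_m = X X_b`; the involutions give two relations between `X + Y` and `X Y` on the lines
tangent to inner leaves; a system of Riccati type and a polynomial recursion (lemma of Fatou)
show that `X + Y` is affine and `X Y` quadratic in `b`, and `X + Y`, `X Y` depend affinely on one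
function of `c`: the leaves are arcs of conics of a pencil. (3) So the equation of Monge holds on
a dense set, thus everywhere, and every leaf consists of arcs of conics; by connectedness each
leaf is one conic, hence an ellipse. (4) The family of these ellipses is of class `C²` in `c`
and its velocity does not vanish, and by (2) the acceleration is parallel to the velocity for a
dense set of `c`, hence for all `c`: the family lies in a pencil. (5) Passage to the limit
`c → 0`.
-/

set_option autoImplicit false

namespace Pool.Agent.Results.MP_ae5b4e_an.HereditaryInvolutions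

open Filter Topology
open scoped ContDiff

/-- A smooth foliation of the one-sided neighbourhood `{0 ≤ f < r}` of the closed curve
`γ = {f = 0}` by the closed convex curves `{f = c}`, `0 ≤ c < r`. -/
structure Foliation (f : ℝ × ℝ → ℝ) (r : ℝ) : Prop where
  continuous : Continuous f
  inside : ∃ z, f z < 0
  convex : ∀ c, 0 ≤ c → c < r → Convex ℝ {p | f p ≤ c}
  bounded : ∀ c, 0 ≤ c → c < r → Bornology.IsBounded {p | f p ≤ c}
  smooth : ∃ U : Set (ℝ × ℝ), IsOpen U ∧ {p | 0 ≤ f p ∧ f p < r} ⊆ U ∧ ContDiffOn ℝ ∞ f U
  regular : ∀ p, 0 ≤ f p → f p < r → fderiv ℝ f p ≠ 0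

/-- The involution of the tangent line at `p` which exchanges the two points of each leaf is
projective near `p`. -/
def ProjectiveAt (f : ℝ × ℝ → ℝ) (p : ℝ × ℝ) : Prop :=
  ∀ v : ℝ × ℝ, v ≠ 0 → fderiv ℝ f p v = 0 →
    ∃ c : ℝ, ∀ᶠ s in 𝓝 (0 : ℝ), f (p + s • v) = f (p - (s / (1 + c * s)) • v)

/-- the polynomial `k₀ + k₁ x + k₂ y + k₃ x² + k₄ x y + k₅ y²` -/
def conic (k : Fin 6 → ℝ) (p : ℝ × ℝ) : ℝ :=
  k 0 + k 1 * p.1 + k 2 * p.2 + k 3 * p.1 ^ 2 + k 4 * (p.1 * p.2) + k 5 * p.2 ^ 2

theorem result (f : ℝ × ℝ → ℝ) (r : ℝ) (hr : 0 < r) (hF : Foliation f r)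
    (h : ∀ p, 0 < f p → f p < r → ProjectiveAt f p) :
    ∃ A B : Fin 6 → ℝ, LinearIndependent ℝ ![A, B] ∧ ∀ c, 0 ≤ c → c < r →
      ∃ k ∈ Submodule.span ℝ {A, B}, 0 < k 3 ∧ k 4 ^ 2 < 4 * (k 3 * k 5) ∧
        (∀ p, conic k p < 0 ↔ f p < c) ∧ ∀ p, conic k p = 0 ↔ f p = c := by
  obtain ⟨U, hU, hUs, hf⟩ := hF.smooth
  exact Pool.Agent.V5helper21.HD.main f r hr hF.continuous
    (fun c h0 h1 => ⟨hF.convex c h0 h1, hF.bounded c h0 h1⟩) hF.inside U hU hUs hf hF.regular h

end Pool.Agent.Results.MP_ae5b4e_an.HereditaryInvolutions
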