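import Pool.Agent.V5helper83.AR.InnerFin
import Pool.Agent.V5helper83.OA.Sub

/-!
# Inner billiards with an analytic first integral and an algebraic boundary arc

By projective duality the (inner) billiard inside an oval `γ` is the case of MP_ae5b4e_an in which
the involution of the tangent line of the dual curve (the pencil of the lines through a point of
`γ`) is dual to the reflection in `γ`, and confocal families are dual to pencils of conics.
-/

open Complex Set Polynomial

open scoped Polynomial.Bivariate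

namespace Pool.Agent.Results.MP_ae5b4e_an.InnerAlgebraicArc

/-- `γ` is a closed plane curve with positive continuous radius of curvature `ρ`, parametrised by
its normal angle: `γ'(s) = ρ(s) i e^{is}`; the outer unit normal at `γ s` is `e^{is}`. -/
def IsOval (γ : ℝ → ℂ) (ρ : ℝ → ℝ) : Prop :=
  (∀ s, γ (s + 2 * Real.pi) = γ s) ∧ Continuous ρ ∧ (∀ s, 0 < ρ s) ∧
    ∀ s : ℝ, HasDerivAt γ ((ρ s : ℂ) * I * cexp (s * I)) s

/-- the arc `γ s`, `α < s < β`, lies on an algebraic curve: the coordinates `(x, y)` of its points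
satisfy `A(x, y) = 0` for a nonzero polynomial `A` in two variables -/
def IsAlgebraicArc (γ : ℝ → ℂ) (α β : ℝ) : Prop :=
  ∃ A : ℂ[X][Y], A ≠ 0 ∧ ∀ s ∈ Ioo α β, A.evalEval ((γ s).re : ℂ) ((γ s).im : ℂ) = 0

/-- support coordinate of the line with unit normal `e^{iφ}` through the point `z`: the line is
`{x | Re (x e^{-iφ}) = support z φ}` -/
noncomputable def support (z : ℂ) (φ : ℝ) : ℝ := (z * cexp (-(φ * I))).re

/-- `K(φ, p)` is a nonconstant real analytic first integral of the billiard inside `γ` near the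
boundary: a function of the oriented line with normal angle `φ` and support coordinate `p`, which
is analytic and nonconstant near the tangent lines of `γ` (`|p - support (γ φ) φ| < ε`; periodicity
in `φ` is not required), and which for every `s` has the same value at the two lines through `γ s`
with normal angles `s + δ` and `s - δ` (exchanged by the reflection in `γ` at `γ s`), for all small
`δ > 0`. -/
def IsIntegralNear (γ : ℝ → ℂ) (K : ℝ → ℝ → ℝ) (ε : ℝ) : Prop :=
  0 < ε ∧ AnalyticOnNhd ℝ (Function.uncurry K) {z | |z.2 - support (γ z.1) z.1| < ε} ∧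
    (∀ s : ℝ, ∃ εs > 0, ∀ δ : ℝ, 0 < δ → δ < εs →
      K (s + δ) (support (γ s) (s + δ)) = K (s - δ) (support (γ s) (s - δ))) ∧
    ∃ φ p ψ q : ℝ, |p - support (γ φ) φ| < ε ∧ |q - support (γ ψ) ψ| < ε ∧ K φ p ≠ K ψ q

/-- the ellipse of the points `(x, y)` with
`a (x - u)² + 2 b (x - u) (y - v) + d (y - v)² = 1`, where `c = u + iv` -/
def conic (c : ℂ) (a b d : ℝ) : Set ℂ :=
  {x : ℂ | a * (x.re - c.re) ^ 2 + 2 * b * (x.re - c.re) * (x.im - c.im)
      + d * (x.im - c.im) ^ 2 = 1}

/-- The square of the support function of `conic c a b d` about its centre `c`.  The tangent lines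
of the ellipse have the support coordinates `support c φ + √(supportSq a b d φ)`, and the tangent
lines of the ellipses confocal with it `support c φ + √(supportSq a b d φ - l)`, `l` constant. -/
noncomputable def supportSq (a b d φ : ℝ) : ℝ :=
  (d * Real.cos φ ^ 2 - 2 * b * (Real.cos φ * Real.sin φ) + a * Real.sin φ ^ 2) / (a * d - b ^ 2)

/-- Let `γ` be an oval of which some arc lies on an algebraic curve, and let `K` be a nonconstant
real analytic first integral of the billiard inside `γ` near the boundary.  Then `γ` is an ellipse,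
and `K` is constant on the set of the tangent lines of every ellipse confocal with `γ` and close to
`γ`. -/
theorem result : ∀ (γ : ℝ → ℂ) (ρ : ℝ → ℝ), IsOval γ ρ → ∀ α β : ℝ, α < β →
    IsAlgebraicArc γ α β → ∀ (K : ℝ → ℝ → ℝ) (ε : ℝ), IsIntegralNear γ K ε →
    ∃ (c : ℂ) (a b d : ℝ), 0 < a ∧ 0 < a * d - b ^ 2 ∧ Set.range γ = conic c a b d ∧
      ∃ η > 0, ∀ l : ℝ, |l| < η → ∃ κ : ℝ, ∀ φ : ℝ, 0 < supportSq a b d φ - l ∧
        |support c φ + Real.sqrt (supportSq a b d φ - l) - support (γ φ) φ| < ε ∧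
        K φ (support c φ + Real.sqrt (supportSq a b d φ - l)) = κ := by
  rintro γ ρ ⟨h1, h2, h3, h4⟩ α β hαβ ⟨A, hA0, hA⟩ K ε
    ⟨hε, hK, hsym, φ, p, ψ, q, hp, hq, hne⟩
  obtain ⟨c, a, b, d, ha, hdet, hr⟩ := Pool.Agent.V5helper83.AR.inner_algebraic
    (γ := γ) (ρ := ρ) ⟨h1, h2, h3, h4⟩ hε hK hsym (by
      rintro ⟨k, hk⟩
      exact hne ((hk φ p hp).trans (hk ψ q hq).symm))
    (A := Pool.Agent.V5helper83.OA.sb A) (Pool.Agent.V5helper83.OA.sb_ne hA0) hαβ (by
      intro s hs
      have e1 : (γ s + (starRingEnd ℂ) (γ s)) / 2 = ((γ s).re : ℂ) := by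
        rw [Complex.add_conj]
        push_cast
        ring
      have e2 : -I * (γ s - (starRingEnd ℂ) (γ s)) / 2 = ((γ s).im : ℂ) := by
        rw [Complex.sub_conj]
        push_cast
        linear_combination (-((γ s).im : ℂ)) * I_sq
      rw [Pool.Agent.V5helper83.OA.sb_eval, e1, e2]
      exact hA s hs)
  obtain ⟨η, hη, hl⟩ := Pool.Agent.N264.MKI.conf h3 h4 ha hdet hr hε hK hsym
  refine ⟨c, a, b, d, ha, hdet, hr, η, hη, fun l hl' => ?_⟩
  obtain ⟨κ, hκ⟩ := hl l hl'
  exact ⟨κ, fun φ => ⟨(hκ φ).2.1, (hκ φ).1, (hκ φ).2.2⟩⟩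

end Pool.Agent.Results.MP_ae5b4e_an.InnerAlgebraicArc
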