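import Pool.Agent.V5helper83.AR.OuterFin

/-!
# Affine involutions on the tangent lines of ovals with an algebraic arc

The case of MP_ae5b4e_an in which all `σ_p` are the point reflections in `p` (outer billiards),
the leaves are the level sets of a real analytic function near `γ`, and some arc of `γ` lies on an
algebraic curve without inflectional asymptotes.  Uses the starting libraries `H719FX`
(regularity of the complexified curve) and `W743.BE`.
-/

open Complex Set Polynomial

open scoped Polynomial.Bivariate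

namespace Pool.Agent.Results.MP_ae5b4e_an.OuterAlgebraicArc

/-- `γ` is a closed plane curve with positive continuous radius of curvature `ρ`, parametrised by
its normal angle: `γ'(s) = ρ(s) i e^{is}`; the outer unit normal at `γ s` is `e^{is}`. -/
def IsOval (γ : ℝ → ℂ) (ρ : ℝ → ℝ) : Prop :=
  (∀ s, γ (s + 2 * Real.pi) = γ s) ∧ Continuous ρ ∧ (∀ s, 0 < ρ s) ∧
    ∀ s : ℝ, HasDerivAt γ ((ρ s : ℂ) * I * cexp (s * I)) s

/-- the point at signed distance `δ` from `γ s` on the tangent line at `γ s` -/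
noncomputable def tangentPoint (γ : ℝ → ℂ) (s δ : ℝ) : ℂ := γ s + δ * (I * cexp (s * I))

/-- `K(x, y)` is a nonconstant real analytic first integral of the outer billiard about `γ` near
`γ`: it is analytic and nonconstant on a connected neighbourhood `U` of `γ`, and for every `s` it
has the same value at the two points at distance `δ` from `γ s` on the tangent line at `γ s`, which
the reflection in `γ s` exchanges, for all small `δ > 0`. -/
def IsIntegralNear (γ : ℝ → ℂ) (K : ℝ → ℝ → ℝ) (U : Set (ℝ × ℝ)) : Prop :=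
  IsOpen U ∧ IsPreconnected U ∧ (∀ s, ((γ s).re, (γ s).im) ∈ U) ∧
    AnalyticOnNhd ℝ (Function.uncurry K) U ∧
    (∀ s : ℝ, ∃ ε > 0, ∀ δ : ℝ, 0 < δ → δ < ε →
      K (tangentPoint γ s δ).re (tangentPoint γ s δ).im
        = K (tangentPoint γ s (-δ)).re (tangentPoint γ s (-δ)).im) ∧
    ∃ z ∈ U, ∃ w ∈ U, K z.1 z.2 ≠ K w.1 w.2

/-- The complex curve `A(x, y) = 0` has no inflectional asymptote: for every line
`αx + βy = δ` there are `c > 0` and `R` with `|αx + βy - δ| ≥ c / (|x| + |y|)` at all the points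
`(x, y)` of the curve that are not on the line and have `|x| + |y| > R`.  (At a branch at infinity
with an asymptote the contact with it is then at most twice the contact with a general line
through the point at infinity, as for a hyperbola; branches tangent to the line at infinity and
lines contained in the curve are allowed.) -/
def NoInflectionalAsymptote (A : ℂ[X][Y]) : Prop := ∀ α β δ : ℂ, (α ≠ 0 ∨ β ≠ 0) →
  ∃ c > 0, ∃ R : ℝ, ∀ x y : ℂ, A.evalEval x y = 0 → α * x + β * y ≠ δ → R < ‖x‖ + ‖y‖ →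
    c ≤ (‖x‖ + ‖y‖) * ‖α * x + β * y - δ‖

/-- the conic of the homothetic pencil: the set of the points `(x, y)` with
`a (x - u)² + 2 b (x - u) (y - v) + d (y - v)² = l`, where `c = u + iv` -/
def conic (c : ℂ) (a b d l : ℝ) : Set ℂ :=
  {x : ℂ | a * (x.re - c.re) ^ 2 + 2 * b * (x.re - c.re) * (x.im - c.im)
      + d * (x.im - c.im) ^ 2 = l}

lemma tangentPoint_re (γ : ℝ → ℂ) (s δ : ℝ) :
    (tangentPoint γ s δ).re = (γ s).re - δ * Real.sin s := by
  simp [tangentPoint, Complex.exp_ofReal_mul_I_re, Complex.exp_ofReal_mul_I_im]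
  ring

lemma tangentPoint_im (γ : ℝ → ℂ) (s δ : ℝ) :
    (tangentPoint γ s δ).im = (γ s).im + δ * Real.cos s := by
  simp [tangentPoint, Complex.exp_ofReal_mul_I_re, Complex.exp_ofReal_mul_I_im]

lemma oInt {γ : ℝ → ℂ} {K : ℝ → ℝ → ℝ} {U : Set (ℝ × ℝ)} (h : IsIntegralNear γ K U) :
    H719FX.OInt γ K U := by
  obtain ⟨h1, h2, h3, h4, h5, z, hz, w, hw, hne⟩ := h
  refine ⟨h1, h2, h3, h4, fun s => ?_, ?_⟩
  · obtain ⟨ε, hε, h⟩ := h5 s
    refine ⟨ε, hε, fun δ hδ hδ' => ?_⟩
    have := h δ hδ hδ'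
    simpa [tangentPoint_re, tangentPoint_im, sub_eq_add_neg] using this
  · rintro ⟨c, hc⟩
    exact hne ((hc z hz).trans (hc w hw).symm)

/-- Let `γ` be an oval of which some arc lies on an algebraic curve without inflectional
asymptotes, and let `K` be a nonconstant real analytic function near `γ` whose level sets are
exchanged by the point reflections of the tangent lines in the points of tangency.  Then `γ` is an
ellipse, and `K` is constant on every ellipse of the homothetic pencil of `γ` close to `γ` outside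
it. -/
theorem result : ∀ (γ : ℝ → ℂ) (ρ : ℝ → ℝ), IsOval γ ρ → ∀ α β : ℝ, α < β →
    ∀ A : ℂ[X][Y], A ≠ 0 → (∀ s ∈ Ioo α β, A.evalEval ((γ s).re : ℂ) ((γ s).im : ℂ) = 0) →
    NoInflectionalAsymptote A →
    ∀ (K : ℝ → ℝ → ℝ) (U : Set (ℝ × ℝ)), IsIntegralNear γ K U →
    ∃ (c : ℂ) (a b d : ℝ), 0 < a ∧ 0 < a * d - b ^ 2 ∧ Set.range γ = conic c a b d 1 ∧
      ∃ η > 0, ∀ l : ℝ, 1 ≤ l → l < 1 + η → ∃ κ : ℝ, ∀ x ∈ conic c a b d l,
        (x.re, x.im) ∈ U ∧ K x.re x.im = κ := by
  rintro γ ρ ⟨h1, h2, h3, h4⟩ α β hαβ A hA0 hA hNF K U hK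
  obtain ⟨c, a, b, d, ha, hdet, hr, η, hη, hl⟩ := Pool.Agent.V5helper83.AR.outer_main
    ⟨h1, h2, h3, h4⟩ (oInt hK) hA0 hαβ hA hNF
  refine ⟨c, a, b, d, ha, hdet, hr, η, hη, fun l hl1 hl2 => ?_⟩
  obtain ⟨κ, hκ⟩ := hl l hl1 hl2
  exact ⟨κ, fun x hx => hκ x.re x.im hx⟩

end Pool.Agent.Results.MP_ae5b4e_an.OuterAlgebraicArc
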